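import Pool.Agent.Helper48.KV.GoalsJ

/-!
# Packet KV-J JFLD: the weights of the left functional are admissible fields (MP_66be51_an)
-/

set_option autoImplicit false
set_option linter.unusedVariables false

open MeasureTheory Set Filter Topology

noncomputable section

namespace Pool.Agent.Helper40.KV

open Pool.Agent.Helper33.KV Pool.Agent.Helper41.KV Pool.Agent.Helper48.KV

/-! ## The class of fields -/

/-- bounded and jointly continuous on `[t1,t2] × ℝ` -/
def B0 (t1 t2 : ℝ) (F : ℝ → ℝ → ℝ) : Prop :=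
  ContinuousOn (fun z : ℝ × ℝ => F z.1 z.2) (Icc t1 t2 ×ˢ univ) ∧
    ∃ C : ℝ, ∀ t ∈ Icc t1 t2, ∀ x, |F t x| ≤ C

/-- with the space derivatives up to the order `n` -/
def BB (t1 t2 : ℝ) : ℕ → (ℝ → ℝ → ℝ) → Prop
  | 0, F => B0 t1 t2 F
  | n + 1, F => B0 t1 t2 F ∧ ∃ F' : ℝ → ℝ → ℝ,
      (∀ t ∈ Icc t1 t2, ∀ x, HasDerivAt (F t) (F' t x) x) ∧ BB t1 t2 n F'

variable {t1 t2 : ℝ}

theorem BB.b0 {n : ℕ} {F : ℝ → ℝ → ℝ} (h : BB t1 t2 n F) : B0 t1 t2 F := by
  cases n with
  | zero => exact h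
  | succ n => exact h.1

theorem BB.down {n : ℕ} {F : ℝ → ℝ → ℝ} (h : BB t1 t2 (n + 1) F) : BB t1 t2 n F := by
  induction n generalizing F with
  | zero => exact h.1
  | succ n ih =>
    obtain ⟨h0, F', h1, h2⟩ := h
    exact ⟨h0, F', h1, ih h2⟩

theorem B0.mul {F G : ℝ → ℝ → ℝ} (hF : B0 t1 t2 F) (hG : B0 t1 t2 G) :
    B0 t1 t2 (fun t x => F t x * G t x) := by
  refine ⟨hF.1.mul hG.1, ?_⟩
  obtain ⟨C, hC⟩ := hF.2
  obtain ⟨D, hD⟩ := hG.2
  refine ⟨C * D, fun t ht x => ?_⟩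
  rw [abs_mul]
  exact mul_le_mul (hC t ht x) (hD t ht x) (abs_nonneg _) ((abs_nonneg _).trans (hC t ht x))

theorem B0.add {F G : ℝ → ℝ → ℝ} (hF : B0 t1 t2 F) (hG : B0 t1 t2 G) :
    B0 t1 t2 (fun t x => F t x + G t x) := by
  refine ⟨hF.1.add hG.1, ?_⟩
  obtain ⟨C, hC⟩ := hF.2
  obtain ⟨D, hD⟩ := hG.2
  exact ⟨C + D, fun t ht x => (abs_add_le _ _).trans (add_le_add (hC t ht x) (hD t ht x))⟩

theorem B0.congr {F G : ℝ → ℝ → ℝ} (hF : B0 t1 t2 F) (h : ∀ t ∈ Icc t1 t2, ∀ x, G t x = F t x) :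
    B0 t1 t2 G := by
  refine ⟨hF.1.congr fun z hz => h z.1 hz.1 z.2, ?_⟩
  obtain ⟨C, hC⟩ := hF.2
  exact ⟨C, fun t ht x => by rw [h t ht x]; exact hC t ht x⟩

theorem BB.congr {n : ℕ} {F G : ℝ → ℝ → ℝ} (hF : BB t1 t2 n F)
    (h : ∀ t ∈ Icc t1 t2, ∀ x, G t x = F t x) : BB t1 t2 n G := by
  cases n with
  | zero => exact B0.congr hF h
  | succ n =>
    obtain ⟨h0, F', h1, h2⟩ := hF
    refine ⟨h0.congr h, F', fun t ht x => ?_, h2⟩
    have : G t = F t := funext (h t ht)
    rw [this]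
    exact h1 t ht x

theorem BB.add {n : ℕ} {F G : ℝ → ℝ → ℝ} (hF : BB t1 t2 n F) (hG : BB t1 t2 n G) :
    BB t1 t2 n (fun t x => F t x + G t x) := by
  induction n generalizing F G with
  | zero => exact B0.add hF hG
  | succ n ih =>
    obtain ⟨h0, F', h1, h2⟩ := hF
    obtain ⟨g0, G', g1, g2⟩ := hG
    exact ⟨h0.add g0, fun t x => F' t x + G' t x, fun t ht x => (h1 t ht x).add (g1 t ht x),
      ih h2 g2⟩

theorem BB.mul {n : ℕ} {F G : ℝ → ℝ → ℝ} (hF : BB t1 t2 n F) (hG : BB t1 t2 n G) :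
    BB t1 t2 n (fun t x => F t x * G t x) := by
  induction n generalizing F G with
  | zero => exact B0.mul hF hG
  | succ n ih =>
    have hF' := hF.down
    have hG' := hG.down
    obtain ⟨h0, F', h1, h2⟩ := hF
    obtain ⟨g0, G', g1, g2⟩ := hG
    exact ⟨h0.mul g0, fun t x => F' t x * G t x + F t x * G' t x,
      fun t ht x => (h1 t ht x).mul (g1 t ht x), (ih h2 hG').add (ih hF' g2)⟩

theorem B0.time {f : ℝ → ℝ} (hf : ContinuousOn f (Icc t1 t2)) : B0 t1 t2 (fun t _ => f t) := by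
  refine ⟨hf.comp continuousOn_fst fun _ hz => hz.1, ?_⟩
  obtain ⟨C, hC⟩ := isCompact_Icc.exists_bound_of_continuousOn hf
  exact ⟨C, fun t ht x => by simpa using hC t ht⟩

theorem BB.time {n : ℕ} {f : ℝ → ℝ} (hf : ContinuousOn f (Icc t1 t2)) :
    BB t1 t2 n (fun t _ => f t) := by
  induction n generalizing f with
  | zero => exact B0.time hf
  | succ n ih =>
    exact ⟨B0.time hf, fun _ _ => 0, fun t ht x => hasDerivAt_const x (f t),
      ih (f := fun _ => 0) continuousOn_const⟩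

theorem BB.const {n : ℕ} (c : ℝ) : BB t1 t2 n (fun _ _ => c) :=
  BB.time (f := fun _ => c) continuousOn_const

theorem BB.pow {n : ℕ} {F : ℝ → ℝ → ℝ} (hF : BB t1 t2 n F) (m : ℕ) :
    BB t1 t2 n (fun t x => F t x ^ m) := by
  induction m with
  | zero => exact (BB.const 1).congr fun t _ x => pow_zero _
  | succ m ih => exact (ih.mul hF).congr fun t _ x => pow_succ _ _

theorem BB.ode {F G : ℝ → ℝ → ℝ} (m : ℕ) (h0 : B0 t1 t2 F) (hG : ∀ n, BB t1 t2 n G)
    (hd : ∀ t ∈ Icc t1 t2, ∀ x, HasDerivAt (F t) (G t x * F t x ^ m) x) (n : ℕ) :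
    BB t1 t2 n F := by
  induction n with
  | zero => exact h0
  | succ n ih => exact ⟨h0, fun t x => G t x * F t x ^ m, hd, (hG n).mul (ih.pow m)⟩

theorem BB.iter {n : ℕ} {F : ℝ → ℝ → ℝ} (hF : BB t1 t2 n F) :
    B0 t1 t2 (fun t x => iteratedDeriv n (F t) x) := by
  induction n generalizing F with
  | zero => simpa [BB] using hF
  | succ n ih =>
    obtain ⟨h0, F', h1, h2⟩ := hF
    refine (ih h2).congr fun t ht x => ?_
    have : deriv (F t) = F' t := funext fun y => (h1 t ht y).deriv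
    rw [iteratedDeriv_succ', this]

theorem BB.contDiff {n : ℕ} {F : ℝ → ℝ → ℝ} (hF : BB t1 t2 n F) (t : ℝ) (ht : t ∈ Icc t1 t2) :
    ContDiff ℝ n (F t) := by
  induction n generalizing F with
  | zero =>
    rw [Nat.cast_zero, contDiff_zero]
    have h1 := hF.1
    have : F t = (fun z : ℝ × ℝ => F z.1 z.2) ∘ (fun x => (t, x)) := rfl
    rw [this]
    rw [← continuousOn_univ]
    exact h1.comp (by fun_prop) fun x _ => ⟨ht, mem_univ _⟩
  | succ n ih =>
    obtain ⟨h0, F', h1, h2⟩ := hF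
    have hde : deriv (F t) = F' t := funext fun y => (h1 t ht y).deriv
    rw [Nat.cast_succ, contDiff_succ_iff_deriv]
    refine ⟨fun y => (h1 t ht y).differentiableAt, fun h => ?_, ?_⟩
    · exact absurd h (by simp)
    · rw [hde]
      exact ih h2

theorem bb_smooth {F : ℝ → ℝ → ℝ} (hF : ∀ n, BB t1 t2 n F) (t : ℝ) (ht : t ∈ Icc t1 t2) :
    ContDiff ℝ (⊤ : ℕ∞) (F t) :=
  contDiff_infty.2 fun n => (hF n).contDiff t ht

theorem bb_of {F : ℝ → ℝ → ℝ} (hs : ∀ t ∈ Icc t1 t2, ContDiff ℝ (⊤ : ℕ∞) (F t))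
    (hk : ∀ k : ℕ, B0 t1 t2 (fun t x => iteratedDeriv k (F t) x)) (n : ℕ) : BB t1 t2 n F := by
  induction n generalizing F with
  | zero => simpa [BB] using hk 0
  | succ n ih =>
    refine ⟨by simpa using hk 0, fun t x => deriv (F t) x, fun t ht x => ?_, ?_⟩
    · exact ((hs t ht).differentiable (by simp)).differentiableAt.hasDerivAt
    · apply ih
      · intro t ht
        have h := hs t ht
        have h2 : ContDiff ℝ ((⊤ : ℕ∞) + 1 : ℕ∞) (F t) := by simpa using h
        exact (contDiff_succ_iff_deriv.1 (by simpa using h2)).2.2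
      · intro k
        refine (hk (k + 1)).congr fun t ht x => ?_
        rw [iteratedDeriv_succ']

theorem bInf_bb {p pt : ℝ → ℝ → ℝ} (h : BInf p pt t1 t2) (n : ℕ) : BB t1 t2 n p :=
  bb_of h.smooth (fun k => ⟨h.cont k, h.bound k⟩) n

theorem bInf_of {p pt : ℝ → ℝ → ℝ} (h : ∀ n, BB t1 t2 n p) (ht : B0 t1 t2 pt)
    (hd : ∀ t ∈ Icc t1 t2, ∀ x, HasDerivWithinAt (fun τ => p τ x) (pt t x) (Icc t1 t2) t) :
    BInf p pt t1 t2 where
  smooth := bb_smooth h
  cont k := (h k).iter.1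
  bound k := (h k).iter.2
  dt := hd
  contt := ht.1
  boundt := ht.2

theorem bb_bi {F : ℝ → ℝ → ℝ} {t : ℝ} (h : ∀ n, BB t t n F) : BI (F t) := by
  refine ⟨bb_smooth h t (by simp), fun k => ?_⟩
  obtain ⟨C, hC⟩ := (h k).iter.2
  exact ⟨C, hC t (by simp)⟩

/-! ## The generators -/

section gens

variable {z : ℝ → ℝ} {A κ r : ℝ}

theorem z_pos (hz : IsZ z A) (x : ℝ) : 0 < z x := by linarith [hz.ge x]

theorem z_has (hz : IsZ z A) (x : ℝ) : HasDerivAt z (deriv z x) x :=
  ((hz.smooth.differentiable (by simp)).differentiableAt).hasDerivAt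

theorem bb_z' (hz : IsZ z A) (n : ℕ) : BB t1 t2 n (fun _ x => deriv z x) := by
  apply bb_of
  · intro t _
    exact (contDiff_succ_iff_deriv.1 (by simpa using hz.smooth)).2.2
  · intro k
    have h : ∀ x, iteratedDeriv k (fun x => deriv z x) x = iteratedDeriv (k + 1) z x := by
      intro x
      rw [iteratedDeriv_succ']
    refine ⟨?_, ?_⟩
    · simp only [h]
      have h2 : Continuous (iteratedDeriv (k + 1) z) :=
        hz.smooth.continuous_iteratedDeriv (k + 1) (by exact_mod_cast le_top)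
      exact (h2.comp continuous_snd).continuousOn
    · obtain ⟨C, hC⟩ := hz.bd (k + 1) (by omega)
      exact ⟨C, fun t _ x => by simp only [h]; exact hC x⟩

theorem bb_u (hz : IsZ z A) (n : ℕ) : BB t1 t2 n (fun _ x => (z x)⁻¹) := by
  apply BB.ode (G := fun _ x => -1 * deriv z x) 2
  · refine ⟨?_, 1, fun t _ x => ?_⟩
    · have h2 : Continuous (fun w : ℝ × ℝ => (z w.2)⁻¹) :=
        (hz.smooth.continuous.comp continuous_snd).inv₀ fun w => (z_pos hz w.2).ne'
      exact h2.continuousOn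
    · have h1 := hz.ge x
      rw [abs_of_pos (inv_pos.2 (z_pos hz x))]
      exact inv_le_one_of_one_le₀ (by linarith)
  · intro n
    exact (BB.const (-1)).mul (bb_z' hz n)
  · intro t _ x
    have h := (z_has hz x).inv (z_pos hz x).ne'
    refine HasDerivAt.congr_deriv h ?_
    rw [inv_pow]
    ring

theorem s_pos (hz : IsZ z A) (hr : 0 < r) {t : ℝ} (ht : 0 < t) (x : ℝ) : 0 < 3 * t + r * z x := by
  have := z_pos hz x
  positivity

theorem s_cont (hz : IsZ z A) : Continuous (fun w : ℝ × ℝ => 3 * w.1 + r * z w.2) := by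
  have h2 : Continuous (fun w : ℝ × ℝ => z w.2) := hz.smooth.continuous.comp continuous_snd
  exact (continuous_const.mul continuous_fst).add (continuous_const.mul h2)

theorem bb_v (hz : IsZ z A) (hr : 0 < r) (h1 : 0 < t1) (n : ℕ) :
    BB t1 t2 n (fun t x => (3 * t + r * z x)⁻¹) := by
  apply BB.ode (G := fun _ x => -r * deriv z x) 2
  · refine ⟨?_, r⁻¹, fun t ht x => ?_⟩
    · exact (s_cont hz).continuousOn.inv₀ fun w hw => (s_pos hz hr (h1.trans_le hw.1.1) w.2).ne'
    · have h3 := hz.ge x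
      have ht0 : 0 < t := h1.trans_le ht.1
      rw [abs_of_pos (inv_pos.2 (s_pos hz hr ht0 x))]
      apply inv_anti₀ hr
      nlinarith
  · intro n
    exact (BB.const (-r)).mul (bb_z' hz n)
  · intro t ht x
    have hs := s_pos hz hr (h1.trans_le ht.1) x
    have h := (((z_has hz x).const_mul r).const_add (3 * t)).inv hs.ne'
    refine HasDerivAt.congr_deriv h ?_
    rw [inv_pow]
    ring

theorem bb_h (hJW : S_JW) (hz : IsZ z A) (hκ : 0 < κ) (hκ2 : κ ≤ 1 / 4) (hr : 0 < r) (h1 : 0 < t1)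
    (n : ℕ) : BB t1 t2 n (fun t x => hJ κ r t (z x)) := by
  apply BB.ode (G := fun t x => 3 * κ * t * ((z x)⁻¹ * ((3 * t + r * z x)⁻¹ * deriv z x))) 1
  · refine ⟨?_, (1 / r) ^ κ, fun t ht x => ?_⟩
    · unfold hJ
      apply ContinuousOn.rpow_const
      · have h2 : Continuous (fun w : ℝ × ℝ => z w.2) := hz.smooth.continuous.comp continuous_snd
        exact h2.continuousOn.div (s_cont hz).continuousOn
          fun w hw => (s_pos hz hr (h1.trans_le hw.1.1) w.2).ne'
      · intro w hw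
        exact Or.inr hκ.le
    · have ht0 : 0 < t := h1.trans_le ht.1
      have hs := s_pos hz hr ht0 x
      have hzp := z_pos hz x
      unfold hJ
      rw [abs_of_nonneg (Real.rpow_nonneg (by positivity) _)]
      apply Real.rpow_le_rpow (by positivity) _ hκ.le
      rw [div_le_div_iff₀ hs hr]
      nlinarith
  · intro n
    exact (BB.time (f := fun t => 3 * κ * t) (by fun_prop)).mul
      ((bb_u hz n).mul ((bb_v hz hr h1 n).mul (bb_z' hz n)))
  · intro t ht x
    have ht0 : 0 < t := h1.trans_le ht.1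
    have hs := s_pos hz hr ht0 x
    have hzp := z_pos hz x
    have h := ((hJW κ r t (z x) hκ hκ2 hr ht0 hzp).1).comp x (z_has hz x)
    refine HasDerivAt.congr_deriv h ?_
    unfold QJ
    field_simp
    ring

theorem QJ_eq (hz : IsZ z A) (hr : 0 < r) {t : ℝ} (ht : 0 < t) (x : ℝ) :
    QJ κ r t (z x) = 9 * κ * t ^ 2 * (hJ κ r t (z x) * ((z x)⁻¹ * (3 * t + r * z x)⁻¹)) := by
  unfold QJ
  rw [div_eq_mul_inv, mul_inv]
  ring

theorem bb_Q (hJW : S_JW) (hz : IsZ z A) (hκ : 0 < κ) (hκ2 : κ ≤ 1 / 4) (hr : 0 < r) (h1 : 0 < t1)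
    (n : ℕ) : BB t1 t2 n (fun t x => QJ κ r t (z x)) :=
  ((BB.time (f := fun t => 9 * κ * t ^ 2) (by fun_prop)).mul
    ((bb_h hJW hz hκ hκ2 hr h1 n).mul ((bb_u hz n).mul (bb_v hz hr h1 n)))).congr
    fun t ht x => QJ_eq hz hr (h1.trans_le ht.1) x

theorem bb_P (hJW : S_JW) (hz : IsZ z A) (hκ : 0 < κ) (hκ2 : κ ≤ 1 / 4) (hr : 0 < r) (h1 : 0 < t1)
    (n : ℕ) : BB t1 t2 n (fun t x => PJ κ r t (z x)) :=
  ((bb_h hJW hz hκ hκ2 hr h1 n).mul ((BB.const 1).add
    ((BB.time (f := fun t => -(3 * κ * t)) (by fun_prop)).mul (bb_v hz hr h1 n)))).congr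
    fun t ht x => by
      unfold PJ
      rw [div_eq_mul_inv]
      ring

/-- the bracket of `RJ` -/
theorem bb_br (hz : IsZ z A) (hr : 0 < r) (h1 : 0 < t1) (n : ℕ) :
    BB t1 t2 n (fun t x => (1 - κ) * (z x)⁻¹ + (1 + κ) * r * (3 * t + r * z x)⁻¹) :=
  ((BB.const (1 - κ)).mul (bb_u hz n)).add ((BB.const ((1 + κ) * r)).mul (bb_v hz hr h1 n))

theorem bb_E (hJW : S_JW) (hz : IsZ z A) (hκ : 0 < κ) (hκ2 : κ ≤ 1 / 4) (hr : 0 < r) (h1 : 0 < t1)
    (n : ℕ) : BB t1 t2 n (fun t x => EJ κ r t (z x)) :=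
  (((BB.time (f := fun t => 3 * κ * t) (by fun_prop)).mul
    ((bb_h hJW hz hκ hκ2 hr h1 n).mul (bb_v hz hr h1 n))).mul (bb_br (κ := κ) hz hr h1 n)).congr
    fun t ht x => by
      have ht0 : 0 < t := h1.trans_le ht.1
      have hs := s_pos hz hr ht0 x
      have hzp := z_pos hz x
      unfold EJ RJ QJ
      field_simp
      ring

theorem b0_zE (hJW : S_JW) (hz : IsZ z A) (hκ : 0 < κ) (hκ2 : κ ≤ 1 / 4) (hr : 0 < r)
    (h1 : 0 < t1) : B0 t1 t2 (fun t x => -(z x / t) * EJ κ r t (z x)) := by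
  have h2 : B0 t1 t2 (fun t x => (1 / r + -(3 * t / r) * (3 * t + r * z x)⁻¹)) :=
    (B0.time (f := fun _ => 1 / r) continuousOn_const).add
      ((B0.time (f := fun t => -(3 * t / r)) (by fun_prop)).mul (bb_v hz hr h1 0).b0)
  have h3 := (((B0.time (f := fun _ => -(3 * κ)) continuousOn_const).mul
    ((bb_h hJW hz hκ hκ2 hr h1 0).b0 (t2 := t2))).mul h2).mul ((bb_br (κ := κ) hz hr h1 0).b0)
  refine h3.congr fun t ht x => ?_
  have ht0 : 0 < t := h1.trans_le ht.1
  have hs := s_pos hz hr ht0 x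
  have hzp := z_pos hz x
  unfold EJ RJ QJ
  field_simp
  ring

/-! ## Smoothness in `z` and the derivatives -/

theorem cd_h {t y : ℝ} (n : ℕ) (hr : 0 < r) (ht : 0 < t) (hy : 0 < y) :
    ContDiffAt ℝ n (hJ κ r t) y := by
  change ContDiffAt ℝ n (fun z => (z / (3 * t + r * z)) ^ κ) y
  have h1 : 0 < 3 * t + r * y := by positivity
  apply ContDiffAt.rpow_const_of_ne
  · exact contDiffAt_id.div (by fun_prop) h1.ne'
  · positivity

theorem cd_Q {t y : ℝ} (n : ℕ) (hr : 0 < r) (ht : 0 < t) (hy : 0 < y) :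
    ContDiffAt ℝ n (QJ κ r t) y := by
  change ContDiffAt ℝ n (fun z => 9 * κ * t ^ 2 * hJ κ r t z / (z * (3 * t + r * z))) y
  have h1 : 0 < 3 * t + r * y := by positivity
  exact (contDiffAt_const.mul (cd_h n hr ht hy)).div (by fun_prop) (mul_pos hy h1).ne'

theorem cd_P {t y : ℝ} (n : ℕ) (hr : 0 < r) (ht : 0 < t) (hy : 0 < y) :
    ContDiffAt ℝ n (PJ κ r t) y := by
  change ContDiffAt ℝ n (fun z => hJ κ r t z * (1 - 3 * κ * t / (3 * t + r * z))) y
  have h1 : 0 < 3 * t + r * y := by positivity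
  exact (cd_h n hr ht hy).mul (contDiffAt_const.sub (contDiffAt_const.div (by fun_prop) h1.ne'))

theorem cd_R {t y : ℝ} (n : ℕ) (hr : 0 < r) (ht : 0 < t) (hy : 0 < y) :
    ContDiffAt ℝ n (RJ κ r t) y := by
  change ContDiffAt ℝ n
    (fun z => QJ κ r t z * ((1 - κ) / z + (1 + κ) * r / (3 * t + r * z))) y
  have h1 : 0 < 3 * t + r * y := by positivity
  exact (cd_Q n hr ht hy).mul ((contDiffAt_const.div contDiffAt_id hy.ne').add
    (contDiffAt_const.div (by fun_prop) h1.ne'))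

theorem cd_E {t y : ℝ} (n : ℕ) (hr : 0 < r) (ht : 0 < t) (hy : 0 < y) :
    ContDiffAt ℝ n (EJ κ r t) y := by
  change ContDiffAt ℝ n (fun z => z / (3 * t) * RJ κ r t z) y
  exact (by fun_prop : ContDiffAt ℝ n (fun z : ℝ => z / (3 * t)) y).mul (cd_R n hr ht hy)

theorem it_P (hJW : S_JW) (hκ : 0 < κ) (hκ2 : κ ≤ 1 / 4) (hr : 0 < r) {t y : ℝ} (ht : 0 < t)
    (hy : 0 < y) (k : ℕ) :
    iteratedDeriv (k + 1) (PJ κ r t) y = iteratedDeriv k (EJ κ r t) y := by
  rw [iteratedDeriv_succ']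
  apply Filter.EventuallyEq.iteratedDeriv_eq
  filter_upwards [lt_mem_nhds hy] with w hw
  exact (hJW κ r t w hκ hκ2 hr ht hw).2.2.1.deriv

theorem it_Q (hJW : S_JW) (hκ : 0 < κ) (hκ2 : κ ≤ 1 / 4) (hr : 0 < r) {t y : ℝ} (ht : 0 < t)
    (hy : 0 < y) (k : ℕ) :
    iteratedDeriv (k + 1) (QJ κ r t) y = -iteratedDeriv k (RJ κ r t) y := by
  rw [iteratedDeriv_succ', ← iteratedDeriv_fun_neg]
  apply Filter.EventuallyEq.iteratedDeriv_eq
  filter_upwards [lt_mem_nhds hy] with w hw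
  exact (hJW κ r t w hκ hκ2 hr ht hw).2.1.deriv

theorem it2 (f : ℝ → ℝ) (y : ℝ) : iteratedDeriv 2 f y = deriv (deriv f) y := by
  rw [iteratedDeriv_succ, iteratedDeriv_one]

/-- Leibniz bounds -/
theorem leib3 (hz : IsZ z A) {G c : ℝ → ℝ} {x M0 M1 D1 D2 D3 : ℝ} (hx : x < 1)
    (hG : ContDiffAt ℝ (3 : ℕ) G (z x)) (hc : ContDiffAt ℝ (3 : ℕ) c x) (hc0 : 0 ≤ c x)
    (g0 : |G (z x)| ≤ M0) (g1 : |iteratedDeriv 1 G (z x)| ≤ M1)
    (g2 : |iteratedDeriv 2 G (z x)| ≤ M1) (g3 : |iteratedDeriv 3 G (z x)| ≤ M1)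
    (c1 : |iteratedDeriv 1 c x| ≤ D1) (c2 : |iteratedDeriv 2 c x| ≤ D2)
    (c3 : |iteratedDeriv 3 c x| ≤ D3) :
    |iteratedDeriv 3 (fun y => G (z y) * c y) x| ≤
      M1 * c x + (3 * (M1 * D1) + 3 * (M1 * D2) + M0 * D3) := by
  have hzx : z x = A - x := hz.lin x hx.le
  have hev : (fun y => G (z y) * c y) =ᶠ[𝓝 x] fun y => G (A - y) * c y := by
    filter_upwards [gt_mem_nhds hx] with y hy
    rw [hz.lin y hy.le]
  have hGc : ContDiffAt ℝ (3 : ℕ) (fun y => G (A - y)) x := by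
    rw [hzx] at hG
    exact hG.comp x (by fun_prop)
  rw [hev.iteratedDeriv_eq, iteratedDeriv_fun_mul hGc hc]
  rw [hzx] at g0 g1 g2 g3
  simp only [Finset.sum_range_succ, Finset.sum_range_zero, iteratedDeriv_comp_const_sub,
    smul_eq_mul, iteratedDeriv_zero, zero_add, Nat.choose_zero_right, Nat.choose_self,
    Nat.sub_zero, Nat.sub_self, pow_zero, one_mul, pow_one, Nat.cast_one]
  have e1 : (3 : ℕ) - 1 = 2 := rfl
  have e2 : (3 : ℕ) - 2 = 1 := rfl
  have e3 : (3 : ℕ).choose 1 = 3 := rfl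
  have e4 : (3 : ℕ).choose 2 = 3 := rfl
  rw [e1, e2, e3, e4]
  have m1 : |iteratedDeriv 1 G (A - x) * iteratedDeriv 2 c x| ≤ M1 * D2 := by
    rw [abs_mul]; exact mul_le_mul g1 c2 (abs_nonneg _) ((abs_nonneg _).trans g1)
  have m2 : |iteratedDeriv 2 G (A - x) * iteratedDeriv 1 c x| ≤ M1 * D1 := by
    rw [abs_mul]; exact mul_le_mul g2 c1 (abs_nonneg _) ((abs_nonneg _).trans g2)
  have m3 : |iteratedDeriv 3 G (A - x) * c x| ≤ M1 * c x := by
    rw [abs_mul, abs_of_nonneg hc0]; exact mul_le_mul_of_nonneg_right g3 hc0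
  have m0 : |G (A - x) * iteratedDeriv 3 c x| ≤ M0 * D3 := by
    rw [abs_mul]; exact mul_le_mul g0 c3 (abs_nonneg _) ((abs_nonneg _).trans g0)
  rw [abs_le] at m0 m1 m2 m3 ⊢
  push_cast
  constructor
  · linarith [m0.1, m1.1, m1.2, m2.1, m2.2, m3.1, m3.2, m0.2]
  · linarith [m0.1, m1.1, m1.2, m2.1, m2.2, m3.1, m3.2, m0.2]

theorem leib2 (hz : IsZ z A) {G c : ℝ → ℝ} {x M0 M1 D1 D2 : ℝ} (hx : x < 1)
    (hG : ContDiffAt ℝ (2 : ℕ) G (z x)) (hc : ContDiffAt ℝ (2 : ℕ) c x) (hc0 : 0 ≤ c x)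
    (g0 : |G (z x)| ≤ M0) (g1 : |iteratedDeriv 1 G (z x)| ≤ M1)
    (g2 : |iteratedDeriv 2 G (z x)| ≤ M1)
    (c1 : |iteratedDeriv 1 c x| ≤ D1) (c2 : |iteratedDeriv 2 c x| ≤ D2) :
    |iteratedDeriv 2 (fun y => G (z y) * c y) x| ≤
      M1 * c x + (2 * (M1 * D1) + M0 * D2) := by
  have hzx : z x = A - x := hz.lin x hx.le
  have hev : (fun y => G (z y) * c y) =ᶠ[𝓝 x] fun y => G (A - y) * c y := by
    filter_upwards [gt_mem_nhds hx] with y hy
    rw [hz.lin y hy.le]
  have hGc : ContDiffAt ℝ (2 : ℕ) (fun y => G (A - y)) x := by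
    rw [hzx] at hG
    exact hG.comp x (by fun_prop)
  rw [hev.iteratedDeriv_eq, iteratedDeriv_fun_mul hGc hc]
  rw [hzx] at g0 g1 g2
  simp only [Finset.sum_range_succ, Finset.sum_range_zero, iteratedDeriv_comp_const_sub,
    smul_eq_mul, iteratedDeriv_zero, zero_add, Nat.choose_zero_right, Nat.choose_self,
    Nat.sub_zero, Nat.sub_self, pow_zero, one_mul, pow_one, Nat.cast_one]
  have e1 : (2 : ℕ) - 1 = 1 := rfl
  have e3 : (2 : ℕ).choose 1 = 2 := rfl
  rw [e1, e3]
  have m1 : |iteratedDeriv 1 G (A - x) * iteratedDeriv 1 c x| ≤ M1 * D1 := by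
    rw [abs_mul]; exact mul_le_mul g1 c1 (abs_nonneg _) ((abs_nonneg _).trans g1)
  have m3 : |iteratedDeriv 2 G (A - x) * c x| ≤ M1 * c x := by
    rw [abs_mul, abs_of_nonneg hc0]; exact mul_le_mul_of_nonneg_right g2 hc0
  have m0 : |G (A - x) * iteratedDeriv 2 c x| ≤ M0 * D2 := by
    rw [abs_mul]; exact mul_le_mul g0 c2 (abs_nonneg _) ((abs_nonneg _).trans g0)
  rw [abs_le] at m0 m1 m3 ⊢
  push_cast
  constructor
  · linarith [m0.1, m1.1, m1.2, m3.1, m3.2, m0.2]
  · linarith [m0.1, m1.1, m1.2, m3.1, m3.2, m0.2]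

end gens

theorem near_aux {M H C l i : ℝ} {k m : ℕ} (hkm : k ≤ m) (hM : M * i ≤ H * i) (hi : 0 ≤ i)
    (hH : 0 ≤ H) (hC : 0 ≤ C) (hl : 0 < l) (hl1 : l ≤ 1) :
    M * (C / l ^ k * i) ≤ C * H / l ^ m * i := by
  have h1 : M * (C / l ^ k * i) = C / l ^ k * (M * i) := by ring
  have h2 : C / l ^ k ≤ C / l ^ m :=
    div_le_div_of_nonneg_left hC (by positivity) (pow_le_pow_of_le_one hl.le hl1 hkm)
  calc M * (C / l ^ k * i) = C / l ^ k * (M * i) := h1
    _ ≤ C / l ^ k * (H * i) := mul_le_mul_of_nonneg_left hM (by positivity)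
    _ ≤ C / l ^ m * (H * i) := mul_le_mul_of_nonneg_right h2 (by positivity)
    _ = C * H / l ^ m * i := by ring

theorem jfld (h1 : S_JW) (h2 : S_CUT) (h3 : S_SCL) : S_JFLD := by
  intro α K κ A z hα hα1 hK hκ hκ2 hz
  obtain ⟨C1, T0, hC1, hT0, hT1, hT2, hA, hB⟩ := h2 α K hα hα1 hK
  have hA101 : 101 ≤ A := by
    have e1 := hz.ge 1
    have e2 := hz.lin 1 le_rfl
    linarith
  set Ch : ℝ := ((A + 1) / 3) ^ κ with hChd
  have hCh : 0 < Ch := Real.rpow_pos_of_pos (by linarith) _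
  refine ⟨1 + Ch + 7 * (C1 * Ch), T0, by positivity, hT0, hT1, hT2, fun r hr => ⟨?_, ?_⟩⟩
  · intro t1 t2 ht1 ht12 ht2
    obtain ⟨hbd, hbc⟩ := hB t1 t2 ht1 ht12 ht2
    have hc0 : B0 t1 t2 (cJ α K) := (bInf_bb hbc 0).b0
    have hct0 : B0 t1 t2 (cJt α K) := ⟨hbc.contt, hbc.boundt⟩
    constructor
    · apply bInf_of (fun n => (bb_P h1 hz hκ hκ2 hr ht1 n).mul (bInf_bb hbc n))
      · exact ((b0_zE h1 hz hκ hκ2 hr ht1).mul hc0).add
          ((bb_P h1 hz hκ hκ2 hr ht1 0).b0.mul hct0)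
      · intro t ht x
        have ht0 := ht1.trans_le ht.1
        have b1 := ((h1 κ r t (z x) hκ hκ2 hr ht0 (z_pos hz x)).2.2.2.2.1).hasDerivWithinAt
          (s := Icc t1 t2)
        exact b1.mul (hbc.dt t ht x)
    · apply bInf_of (fun n => (bb_Q h1 hz hκ hκ2 hr ht1 n).mul (bInf_bb hbc n))
      · exact ((((B0.time (f := fun _ => 3) continuousOn_const).mul
          (bb_E h1 hz hκ hκ2 hr ht1 0).b0)).mul hc0).add
          ((bb_Q h1 hz hκ hκ2 hr ht1 0).b0.mul hct0)
      · intro t ht x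
        have ht0 := ht1.trans_le ht.1
        have b1 := ((h1 κ r t (z x) hκ hκ2 hr ht0 (z_pos hz x)).2.2.2.1).hasDerivWithinAt
          (s := Icc t1 t2)
        exact b1.mul (hbc.dt t ht x)
  · intro t ht htT
    obtain ⟨hs4, hd01, _, hp34, hd1, hd0, _, hnear, _, hck, hct, _⟩ := hA t ht htT
    obtain ⟨_, _, hl0, hl1, _⟩ := h3 α t hα hα1 ht (by nlinarith)
    have hbc := (hB t t ht le_rfl htT).2
    have hcs : ContDiff ℝ (⊤ : ℕ∞) (cJ α K t) := hbc.smooth t (by simp)
    have hc0 : ∀ x, 0 ≤ cJ α K t x := fun x => pow_nonneg (hd01 x).1 10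
    have hcz : ∀ x, 1 ≤ x → cJ α K t =ᶠ[𝓝 x] fun _ => 0 := by
      intro x hx
      have hx2 : (1 / 2 : ℝ) < x := by linarith
      filter_upwards [lt_mem_nhds hx2] with y hy
      unfold cJ
      rw [hd0 y (hp34 y hy.le).le]
      norm_num
    refine ⟨?_, fun x => ?_⟩
    · apply bb_bi (F := fun t x => cJ α K t x * EJ κ r t (z x)) (t := t)
      intro n
      exact (bInf_bb hbc n).mul (bb_E h1 hz hκ hκ2 hr ht n)
    · have hzp := z_pos hz x
      have hz100 := hz.ge x
      obtain ⟨_, dQ, dP, _, _, hh0, hPl, hPh, hQ0, hQh, hR0, hRQ, hE0, hEQ, hR1, hR2, hE1, hE2,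
        hhz, _⟩ := h1 κ r t (z x) hκ hκ2 hr ht hzp
      have hP0 : 0 < PJ κ r t (z x) := lt_of_lt_of_le (by nlinarith) hPl
      have hcd : HasDerivAt (cJ α K t) (deriv (cJ α K t) x) x :=
        ((hcs.differentiable (by simp)).differentiableAt).hasDerivAt
      have hi0 : 0 ≤ ind α K t x := indicator_nonneg (fun _ _ => zero_le_one) _
      -- z' c = - c
      have hzc : deriv z x * cJ α K t x = -cJ α K t x := by
        rcases lt_or_ge x 1 with hx | hx
        · have hev : z =ᶠ[𝓝 x] fun y => A - y := by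
            filter_upwards [gt_mem_nhds hx] with y hy
            exact hz.lin y hy.le
          rw [hev.deriv_eq]
          simp
        · rw [(hcz x hx).eq_of_nhds]
          simp
      -- bounds on the near set
      have htk : t ^ (1 - κ) = t * t ^ (-κ) := by
        rw [sub_eq_add_neg, Real.rpow_add ht, Real.rpow_one]
      have htk0 : 0 < t ^ (-κ) := Real.rpow_pos_of_pos ht _
      have hnb : x ∈ nearS α K t → hJ κ r t (z x) ≤ Ch * t ^ (-κ) ∧
          PJ κ r t (z x) ≤ Ch * t ^ (-κ) ∧ QJ κ r t (z x) ≤ Ch * t ^ (1 - κ) ∧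
          RJ κ r t (z x) ≤ Ch * t ^ (1 - κ) ∧ EJ κ r t (z x) ≤ Ch * t ^ (-κ) := by
        intro hx
        obtain ⟨hx1, hx2⟩ := hnear x hx
        have hzA : z x ≤ A + 1 := by
          rw [hz.lin x (by linarith)]
          linarith
        have hhb : hJ κ r t (z x) ≤ Ch * t ^ (-κ) := by
          refine hhz.trans ?_
          rw [hChd, Real.rpow_neg ht.le, ← Real.inv_rpow ht.le,
            ← Real.mul_rpow (by linarith) (by positivity)]
          apply Real.rpow_le_rpow (by positivity) _ hκ.le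
          rw [← div_eq_mul_inv, div_div]
          exact div_le_div_of_nonneg_right hzA (by positivity)
        have hQb : QJ κ r t (z x) ≤ Ch * t ^ (1 - κ) := by
          have e1 : 3 * κ * t / z x ≤ t := by
            rw [div_le_iff₀ hzp]
            nlinarith
          have e2 : 3 * κ * t / z x * hJ κ r t (z x) ≤ t * (Ch * t ^ (-κ)) :=
            mul_le_mul e1 hhb hh0.le ht.le
          rw [htk]
          linarith
        refine ⟨hhb, hPh.trans hhb, hQb, ?_, ?_⟩
        · have e1 : 2 / z x ≤ 1 := by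
            rw [div_le_one hzp]
            linarith
          have e2 : 2 / z x * QJ κ r t (z x) ≤ 1 * QJ κ r t (z x) :=
            mul_le_mul_of_nonneg_right e1 hQ0.le
          linarith
        · refine hEQ.trans ?_
          rw [htk] at hQb
          have e3 : 2 / (3 * t) * QJ κ r t (z x) ≤ 2 / (3 * t) * (Ch * (t * t ^ (-κ))) :=
            mul_le_mul_of_nonneg_left hQb (by positivity)
          refine e3.trans ?_
          have e4 : 2 / (3 * t) * (Ch * (t * t ^ (-κ))) = 2 / 3 * (Ch * t ^ (-κ)) := by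
            field_simp
          rw [e4]
          have : 0 < Ch * t ^ (-κ) := by positivity
          linarith
      have hmi : ∀ M H : ℝ, (x ∈ nearS α K t → M ≤ H) →
          M * ind α K t x ≤ H * ind α K t x := by
        intro M H hMH
        by_cases hx : x ∈ nearS α K t
        · exact mul_le_mul_of_nonneg_right (hMH hx) hi0
        · unfold ind
          rw [indicator_of_notMem hx]
          simp
      have mP := hmi _ _ fun hx => (hnb hx).2.1
      have mQ := hmi _ _ fun hx => (hnb hx).2.2.1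
      have mR := hmi _ _ fun hx => (hnb hx).2.2.2.1
      have mE := hmi _ _ fun hx => (hnb hx).2.2.2.2
      have htk1 : 0 < t ^ (1 - κ) := Real.rpow_pos_of_pos ht _
      have hH : 0 ≤ Ch * t ^ (-κ) := by positivity
      have hH1 : 0 ≤ Ch * t ^ (1 - κ) := by positivity
      -- derivative bounds
      have h3z : 3 / z x ≤ 1 := by
        rw [div_le_one hzp]
        linarith
      have h12z : 12 / z x ^ 2 ≤ 1 := by
        rw [div_le_one (by positivity)]
        nlinarith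
      have gE1 : |iteratedDeriv 1 (EJ κ r t) (z x)| ≤ EJ κ r t (z x) := by
        rw [iteratedDeriv_one]
        refine hE1.trans ?_
        have := mul_le_mul_of_nonneg_right h3z hE0.le
        linarith
      have gE2 : |iteratedDeriv 2 (EJ κ r t) (z x)| ≤ EJ κ r t (z x) := by
        rw [it2]
        refine hE2.trans ?_
        have := mul_le_mul_of_nonneg_right h12z hE0.le
        linarith
      have gR1 : |iteratedDeriv 1 (RJ κ r t) (z x)| ≤ RJ κ r t (z x) := by
        rw [iteratedDeriv_one]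
        refine hR1.trans ?_
        have := mul_le_mul_of_nonneg_right h3z hR0.le
        linarith
      have gR2 : |iteratedDeriv 2 (RJ κ r t) (z x)| ≤ RJ κ r t (z x) := by
        rw [it2]
        refine hR2.trans ?_
        have := mul_le_mul_of_nonneg_right h12z hR0.le
        linarith
      have gE0 : |EJ κ r t (z x)| ≤ EJ κ r t (z x) := (abs_of_pos hE0).le
      have gR0 : |RJ κ r t (z x)| ≤ RJ κ r t (z x) := (abs_of_pos hR0).le
      have gP0 : |PJ κ r t (z x)| ≤ PJ κ r t (z x) := (abs_of_pos hP0).le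
      have gQ0 : |QJ κ r t (z x)| ≤ QJ κ r t (z x) := (abs_of_pos hQ0).le
      have c1 := (hck 1 le_rfl (by norm_num) x).2
      have c2 := (hck 2 (by norm_num) (by norm_num) x).2
      have c3 := (hck 3 (by norm_num) le_rfl x).2
      have hc3 : ContDiffAt ℝ (3 : ℕ) (cJ α K t) x :=
        (contDiff_infty.1 hcs 3).contDiffAt
      have hc2 : ContDiffAt ℝ (2 : ℕ) (cJ α K t) x :=
        (contDiff_infty.1 hcs 2).contDiffAt
      have hcx := hc0 x
      -- the products vanish for x ≥ 1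
      have hzero : ∀ (G : ℝ → ℝ) (k : ℕ), 1 ≤ x →
          iteratedDeriv k (fun y => G (z y) * cJ α K t y) x = 0 := by
        intro G k hx
        have : (fun y => G (z y) * cJ α K t y) =ᶠ[𝓝 x] fun _ => 0 := by
          filter_upwards [hcz x hx] with y hy
          rw [hy, mul_zero]
        rw [this.iteratedDeriv_eq, iteratedDeriv_const]
        split_ifs <;> rfl
      refine ⟨?_, ?_, ?_, ?_, ?_, ?_, ?_⟩
      · have e := (dP.comp x (z_has hz x)).mul hcd
        have e2 := e.deriv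
        have e3 : pJ α K κ r z t = (PJ κ r t ∘ z) * cJ α K t := rfl
        rw [e3, e2]
        simp only [Function.comp]
        linear_combination (EJ κ r t (z x)) * hzc
      · have e := (dQ.comp x (z_has hz x)).mul hcd
        have e2 := e.deriv
        have e3 : qJ α K κ r z t = (QJ κ r t ∘ z) * cJ α K t := rfl
        rw [e3, e2]
        simp only [Function.comp]
        linear_combination (-RJ κ r t (z x)) * hzc
      · have hW : 0 ≤ t ^ (-κ) / lam α t ^ 3 * ind α K t x := by positivity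
        have hEc : 0 ≤ EJ κ r t (z x) * cJ α K t x := mul_nonneg hE0.le hcx
        have e1 : (1 + Ch + 7 * (C1 * Ch)) * t ^ (-κ) / lam α t ^ 3 * ind α K t x =
            (1 + Ch + 7 * (C1 * Ch)) * (t ^ (-κ) / lam α t ^ 3 * ind α K t x) := by ring
        rw [e1]
        have hCC : 0 ≤ C1 * Ch := by positivity
        rcases lt_or_ge x 1 with hx | hx
        · have L := leib3 (M1 := EJ κ r t (z x)) hz hx (cd_P (κ := κ) 3 hr ht hzp) hc3 hcx gP0
            (by rw [it_P h1 hκ hκ2 hr ht hzp 0, iteratedDeriv_zero]; exact gE0)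
            (by rw [it_P h1 hκ hκ2 hr ht hzp 1]; exact gE1)
            (by rw [it_P h1 hκ hκ2 hr ht hzp 2]; exact gE2) c1 c2 c3
          have n1 := near_aux (k := 1) (m := 3) (by norm_num) mE hi0 hH hC1.le hl0 hl1
          have n2 := near_aux (k := 2) (m := 3) (by norm_num) mE hi0 hH hC1.le hl0 hl1
          have n3 := near_aux (k := 3) (m := 3) le_rfl mP hi0 hH hC1.le hl0 hl1
          have e2 : C1 * (Ch * t ^ (-κ)) / lam α t ^ 3 * ind α K t x =
            (C1 * Ch) * (t ^ (-κ) / lam α t ^ 3 * ind α K t x) := by ring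
          rw [e2] at n1 n2 n3
          refine L.trans ?_
          linarith [mul_nonneg hCC hEc, mul_nonneg hCh.le hEc, mul_nonneg hCh.le hW]
        · have := hzero (PJ κ r t) 3 hx
          have e3 : pJ α K κ r z t = fun y => PJ κ r t (z y) * cJ α K t y := rfl
          rw [e3, this, abs_zero]
          positivity
      · have hW : 0 ≤ t ^ (1 - κ) / lam α t ^ 2 * ind α K t x := by positivity
        have hEc : 0 ≤ RJ κ r t (z x) * cJ α K t x := mul_nonneg hR0.le hcx
        have e1 : (1 + Ch + 7 * (C1 * Ch)) * t ^ (1 - κ) / lam α t ^ 2 * ind α K t x =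
            (1 + Ch + 7 * (C1 * Ch)) * (t ^ (1 - κ) / lam α t ^ 2 * ind α K t x) := by ring
        rw [e1]
        have hCC : 0 ≤ C1 * Ch := by positivity
        rcases lt_or_ge x 1 with hx | hx
        · have L := leib2 (M1 := RJ κ r t (z x)) hz hx (cd_Q (κ := κ) 2 hr ht hzp) hc2 hcx gQ0
            (by rw [it_Q h1 hκ hκ2 hr ht hzp 0, iteratedDeriv_zero, abs_neg]; exact gR0)
            (by rw [it_Q h1 hκ hκ2 hr ht hzp 1, abs_neg]; exact gR1) c1 c2
          have n1 := near_aux (k := 1) (m := 2) (by norm_num) mR hi0 hH1 hC1.le hl0 hl1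
          have n3 := near_aux (k := 2) (m := 2) le_rfl mQ hi0 hH1 hC1.le hl0 hl1
          have e2 : C1 * (Ch * t ^ (1 - κ)) / lam α t ^ 2 * ind α K t x =
            (C1 * Ch) * (t ^ (1 - κ) / lam α t ^ 2 * ind α K t x) := by ring
          rw [e2] at n1 n3
          refine L.trans ?_
          linarith [mul_nonneg hCC hEc, mul_nonneg hCh.le hEc, mul_nonneg hCh.le hW,
            mul_nonneg hCC hW]
        · have := hzero (QJ κ r t) 2 hx
          have e3 : qJ α K κ r z t = fun y => QJ κ r t (z y) * cJ α K t y := rfl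
          rw [e3, this, abs_zero]
          positivity
      · have hW : 0 ≤ t ^ (1 - κ) / lam α t ^ 3 * ind α K t x := by positivity
        have hEc : 0 ≤ RJ κ r t (z x) * cJ α K t x := mul_nonneg hR0.le hcx
        have e1 : (1 + Ch + 7 * (C1 * Ch)) * t ^ (1 - κ) / lam α t ^ 3 * ind α K t x =
            (1 + Ch + 7 * (C1 * Ch)) * (t ^ (1 - κ) / lam α t ^ 3 * ind α K t x) := by ring
        rw [e1]
        have hCC : 0 ≤ C1 * Ch := by positivity
        rcases lt_or_ge x 1 with hx | hx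
        · have L := leib3 (M1 := RJ κ r t (z x)) hz hx (cd_Q (κ := κ) 3 hr ht hzp) hc3 hcx gQ0
            (by rw [it_Q h1 hκ hκ2 hr ht hzp 0, iteratedDeriv_zero, abs_neg]; exact gR0)
            (by rw [it_Q h1 hκ hκ2 hr ht hzp 1, abs_neg]; exact gR1)
            (by rw [it_Q h1 hκ hκ2 hr ht hzp 2, abs_neg]; exact gR2) c1 c2 c3
          have n1 := near_aux (k := 1) (m := 3) (by norm_num) mR hi0 hH1 hC1.le hl0 hl1
          have n2 := near_aux (k := 2) (m := 3) (by norm_num) mR hi0 hH1 hC1.le hl0 hl1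
          have n3 := near_aux (k := 3) (m := 3) le_rfl mQ hi0 hH1 hC1.le hl0 hl1
          have e2 : C1 * (Ch * t ^ (1 - κ)) / lam α t ^ 3 * ind α K t x =
            (C1 * Ch) * (t ^ (1 - κ) / lam α t ^ 3 * ind α K t x) := by ring
          rw [e2] at n1 n2 n3
          refine L.trans ?_
          linarith [mul_nonneg hCC hEc, mul_nonneg hCh.le hEc, mul_nonneg hCh.le hW]
        · have := hzero (QJ κ r t) 3 hx
          have e3 : qJ α K κ r z t = fun y => QJ κ r t (z y) * cJ α K t y := rfl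
          rw [e3, this, abs_zero]
          positivity
      · have hW : 0 ≤ t ^ (-κ) / lam α t ^ 2 * ind α K t x := by positivity
        have hEc : 0 ≤ EJ κ r t (z x) * cJ α K t x := mul_nonneg hE0.le hcx
        have e1 : (1 + Ch + 7 * (C1 * Ch)) * t ^ (-κ) / lam α t ^ 2 * ind α K t x =
            (1 + Ch + 7 * (C1 * Ch)) * (t ^ (-κ) / lam α t ^ 2 * ind α K t x) := by ring
        rw [e1]
        have hCC : 0 ≤ C1 * Ch := by positivity
        have e3 : (fun x => cJ α K t x * EJ κ r t (z x)) =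
          fun y => EJ κ r t (z y) * cJ α K t y := by
          funext y
          ring
        rw [e3]
        rcases lt_or_ge x 1 with hx | hx
        · have L := leib2 (M1 := EJ κ r t (z x)) hz hx (cd_E (κ := κ) 2 hr ht hzp) hc2 hcx gE0 gE1 gE2 c1 c2
          have n1 := near_aux (k := 1) (m := 2) (by norm_num) mE hi0 hH hC1.le hl0 hl1
          have n3 := near_aux (k := 2) (m := 2) le_rfl mE hi0 hH hC1.le hl0 hl1
          have e2 : C1 * (Ch * t ^ (-κ)) / lam α t ^ 2 * ind α K t x =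
            (C1 * Ch) * (t ^ (-κ) / lam α t ^ 2 * ind α K t x) := by ring
          rw [e2] at n1 n3
          refine L.trans ?_
          linarith [mul_nonneg hCC hEc, mul_nonneg hCh.le hEc, mul_nonneg hCh.le hW,
            mul_nonneg hCC hW]
        · have := hzero (EJ κ r t) 2 hx
          rw [this, abs_zero]
          positivity
      · intro hx
        obtain ⟨b1, b2, b3, b4, b5⟩ := hnb hx
        have hCC : 0 ≤ C1 * Ch := by positivity
        have hle : Ch ≤ 1 + Ch + 7 * (C1 * Ch) := by linarith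
        have l1 := mul_le_mul_of_nonneg_right hle htk0.le
        have l2 := mul_le_mul_of_nonneg_right hle htk1.le
        exact ⟨b1.trans l1, b2.trans l1, b3.trans l2, b4.trans l2, b5.trans l1⟩

end Pool.Agent.Helper40.KV
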